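import Pool.Agent.Work.MP_e17eac_co.Bd.B20
import Pool.Agent.Work.MP_e17eac_co.Bd.B29

/-!
# Arbitrary sets, part A-I (good pair lemma): definitions

Labellings of the edges by index windows, dyadic towers of mass cells, times of windows,
regular sets (hypothesis `GPH`).
-/

namespace Pool.Agent.Work.MP_e17eac_co.AS

open Finset
open Pool.Agent.Work.MP_e17eac_co.DH
open Pool.Agent.Work.MP_e17eac_co.PS
open Pool.Agent.Work.MP_e17eac_co.DH.XSWEEP (GP)

section lab

variable {κ : Type} [DecidableEq κ]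

/-- The fibre of the value `c` of a labelling of the edges `0, ..., N-1`. -/
def fib (N : ℕ) (g : ℕ → κ) (c : κ) : Finset ℕ := (range N).filter (fun n => g n = c)

/-- The fibres of the labelling are index intervals. -/
def Cvx (N : ℕ) (g : ℕ → κ) : Prop :=
  ∀ n1 n2 n3, n1 ≤ n2 → n2 ≤ n3 → n3 < N → g n1 = g n3 → g n2 = g n1

/-- First index of a fibre (`0` if it is empty). -/
noncomputable def i0 (N : ℕ) (g : ℕ → κ) (c : κ) : ℕ := sInf {n | n < N ∧ g n = c}

/-- Last index of a fibre (`0` if it is empty). -/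
def i1 (N : ℕ) (g : ℕ → κ) (c : κ) : ℕ := (fib N g c).sup id

variable {ι : Type} [Fintype ι] [DecidableEq ι]

/-- Start time of the window `c` of the labelling `g`. -/
noncomputable def st (K : KSys ι) (g : ℕ → κ) (c : κ) : ℝ := K.t (i0 K.N g c)

/-- End time of the window `c` of the labelling `g`. -/
noncomputable def en (K : KSys ι) (g : ℕ → κ) (c : κ) : ℝ := K.t (i1 K.N g c)

/-- Time length of the window `c`. -/
noncomputable def len (K : KSys ι) (g : ℕ → κ) (c : κ) : ℝ := en K g c - st K g c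

/-- Number of lines visited in the window `c`. -/
def V (K : KSys ι) (g : ℕ → κ) (c : κ) : ℕ := (K.lines (fib K.N g c)).card

/-- Net flips of the window `c`. -/
noncomputable def nf (K : KSys ι) (g : ℕ → κ) (c : κ) : ℕ :=
  (K.S (i0 K.N g c) \ K.S (i1 K.N g c + 1)).card

end lab

/-! ### Dyadic towers -/

/-- `f` is the finest labelling of a dyadic tower of mass cells of depth `J`. -/
structure Tower (N J : ℕ) (f : ℕ → ℕ) : Prop where
  mono : ∀ n n', n ≤ n' → n' < N → f n ≤ f n'
  lt : ∀ n, n < N → f n < 2 ^ J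
  size : ∀ c, (fib N f c).card * 2 ^ J ≤ 2 * N

/-- The labelling of level `j` of the tower (`2 ^ j` cells). -/
def lv (J : ℕ) (f : ℕ → ℕ) (j n : ℕ) : ℕ := f n / 2 ^ (J - j)

/-- The mass tower. -/
def mf (N J n : ℕ) : ℕ := n * 2 ^ J / N

/-! ### Regular sets -/

variable {ι : Type} [Fintype ι] [DecidableEq ι]

/-- Hypotheses of the good pair lemma: `E` is regular for the pairs (cell, line `a`) of the levels
`j0 ≤ j1`, with the tight numbers of pairs. All losses are measured by `B`. -/
structure GPH (K : KSys ι) (J : ℕ) (f : ℕ → ℕ) (j0 j1 : ℕ) (B : ℝ) (E : Finset ℕ) : Prop where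
  tow : Tower K.N J f
  h01 : j0 ≤ j1
  h1J : j1 ≤ J
  inj : Function.Injective K.x
  gp : GP K.x K.y
  hB : 2 ^ 20 ≤ B
  hlog : ((Nat.log 2 (Fintype.card ι) : ℝ) + 2) ^ 10 ≤ B
  hTB : ∀ v : ℕ, v ≤ Fintype.card ι → ∃ w, 1 ≤ w ∧ (TROP.TB v w : ℝ) ≤ B * v
  ne : E.Nonempty
  sub : ∀ n ∈ E, n < K.N
  big : (Fintype.card ι : ℝ) ^ ((4 : ℝ) / 3) ≤ B * (E.card : ℝ)
  reg0 : RegF B E (fun n => (lv J f j0 n, K.a n))
  reg1 : RegF B E (fun n => (lv J f j1 n, K.a n))
  p0 : (im E (fun n => (lv J f j0 n, K.a n)) : ℝ) ≤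
    B * Fintype.card ι * ((2 : ℝ) ^ j0) ^ ((1 : ℝ) / 4)
  p1 : (Fintype.card ι : ℝ) * ((2 : ℝ) ^ j1) ^ ((1 : ℝ) / 4) ≤
    B * (im E (fun n => (lv J f j1 n, K.a n)) : ℝ)

/-- All pairs of children of level `j1` visited by one line in one cell of level `j0` are bad:
the gap is smaller than `1/16` of the hull. -/
def AllBad (K : KSys ι) (J : ℕ) (f : ℕ → ℕ) (j0 j1 : ℕ) (E : Finset ℕ) : Prop :=
  ∀ n ∈ E, ∀ n' ∈ E, lv J f j0 n = lv J f j0 n' → K.a n = K.a n' →
    lv J f j1 n < lv J f j1 n' →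
    16 * (st K (lv J f j1) (lv J f j1 n') - en K (lv J f j1) (lv J f j1 n)) <
      en K (lv J f j1) (lv J f j1 n') - st K (lv J f j1) (lv J f j1 n)

/-- `β c p` is a visited child (level `j1`) of smallest time length of the pair (cell `c` of level
`j0`, line `p`). -/
def Shortest (K : KSys ι) (J : ℕ) (f : ℕ → ℕ) (j0 j1 : ℕ) (E : Finset ℕ) (β : ℕ → ι → ℕ) : Prop :=
  ∀ n ∈ E, (∃ m ∈ E, lv J f j0 m = lv J f j0 n ∧ K.a m = K.a n ∧
      lv J f j1 m = β (lv J f j0 n) (K.a n)) ∧
    ∀ m ∈ E, lv J f j0 m = lv J f j0 n → K.a m = K.a n →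
      len K (lv J f j1) (β (lv J f j0 n) (K.a n)) ≤ len K (lv J f j1) (lv J f j1 m)

/-- The visited children of the pair (cell, line) of the edge `n`. -/
def Ch (K : KSys ι) (J : ℕ) (f : ℕ → ℕ) (j0 j1 : ℕ) (E : Finset ℕ) (n : ℕ) : Finset ℕ :=
  (E.filter (fun m => lv J f j0 m = lv J f j0 n ∧ K.a m = K.a n)).image (lv J f j1)

/-- At least half of the other visited children are to the left of `β`. -/
def LeftRich (K : KSys ι) (J : ℕ) (f : ℕ → ℕ) (j0 j1 : ℕ) (E : Finset ℕ) (β : ℕ → ι → ℕ)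
    (n : ℕ) : Prop :=
  (Ch K J f j0 j1 E n).card ≤
    2 * ((Ch K J f j0 j1 E n).filter (fun u => u < β (lv J f j0 n) (K.a n))).card + 1

/-- The edges which are separated from `β` at the level `a + 1` but not at the level `a`, to the
left of `β`. -/
def Sepd (K : KSys ι) (J : ℕ) (f : ℕ → ℕ) (j0 j1 : ℕ) (β : ℕ → ι → ℕ) (a n : ℕ) : Prop :=
  lv J f a n = β (lv J f j0 n) (K.a n) / 2 ^ (j1 - a) ∧
    lv J f (a + 1) n < β (lv J f j0 n) (K.a n) / 2 ^ (j1 - (a + 1))

/-! ### Scale classes around the medians of the level `a` -/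

/-- `n` lies in the left half of its cell of level `a`, and the right half is not empty. -/
def InLeft (K : KSys ι) (J : ℕ) (f : ℕ → ℕ) (a n : ℕ) : Prop :=
  lv J f (a + 1) n % 2 = 0 ∧ (fib K.N (lv J f (a + 1)) (lv J f (a + 1) n + 1)).Nonempty

/-- Scale of the time distance of `n` to the first edge of the right half (ratio `card²`). -/
noncomputable def sc (K : KSys ι) (J : ℕ) (f : ℕ → ℕ) (a n : ℕ) : ℕ :=
  ⌊Real.logb ((Fintype.card ι : ℝ) ^ 2)
    ((st K (lv J f (a + 1)) (lv J f (a + 1) n + 1) - st K (lv J f (a + 1)) (lv J f (a + 1) n)) /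
      (st K (lv J f (a + 1)) (lv J f (a + 1) n + 1) - K.t n))⌋₊

open Classical in
/-- The scale class of the edge `n`. -/
noncomputable def zc (K : KSys ι) (J : ℕ) (f : ℕ → ℕ) (a n : ℕ) : ℕ × ℕ :=
  (lv J f (a + 1) n, if InLeft K J f a n then sc K J f a n else 0)

/-! ### Rotation by 180 degrees -/

/-- The rotated sweep: time `-s`, heights `-h`. -/
def rot (K : KSys ι) : KSys ι where
  x := K.x
  y i := - K.y i
  N := K.N
  t n := - K.t (K.N - 1 - n)
  a n := K.a (K.N - 1 - n)
  b n := K.b (K.N - 1 - n)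
  S n := (K.S (K.N - n))ᶜ
  L s := - K.L (-s)
  x_nonneg := K.x_nonneg
  x_le_one := K.x_le_one
  t_lt n k h1 h2 := by
    have := K.t_lt (K.N - 1 - k) (K.N - 1 - n) (by omega) (by omega)
    linarith
  a_mem n hn := by
    have e : K.N - n = (K.N - 1 - n) + 1 := by omega
    have h1 := K.a_mem (K.N - 1 - n) (by omega)
    have h2 := K.b_mem (K.N - 1 - n) (by omega)
    have h3 : K.a (K.N - 1 - n) ≠ K.b (K.N - 1 - n) := fun h => h2 (h ▸ h1)
    rw [mem_compl, e, K.S_succ _ (by omega), mem_insert, mem_erase]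
    rintro (h | h)
    · exact h3 h
    · exact h.1 rfl
  b_mem n hn := by
    have e : K.N - n = (K.N - 1 - n) + 1 := by omega
    rw [mem_compl, not_not, e, K.S_succ _ (by omega)]
    exact mem_insert_self _ _
  S_succ n hn := by
    have e : K.N - n = (K.N - 1 - n) + 1 := by omega
    have e' : K.N - (n + 1) = K.N - 1 - n := by omega
    have h1 := K.a_mem (K.N - 1 - n) (by omega)
    have h2 := K.b_mem (K.N - 1 - n) (by omega)
    rw [e', e, K.S_succ _ (by omega)]
    ext i
    simp only [mem_compl, mem_insert, mem_erase, not_or, not_and, not_not]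
    constructor
    · intro h
      by_cases hi : i = K.b (K.N - 1 - n)
      · exact Or.inl hi
      · refine Or.inr ⟨?_, hi, fun _ => h⟩
        rintro rfl
        exact h h1
    · rintro (rfl | ⟨h3, h4, h5⟩)
      · exact h2
      · exact h5 h3
  x_lt n hn := K.x_lt _ (by omega)
  meet n hn := by
    have := K.meet (K.N - 1 - n) (by omega)
    linarith
  third n hn i h1 h2 h3 := by
    apply K.third (K.N - 1 - n) (by omega) i h1 h2
    linarith
  below n hn s h1 h2 i hi := by
    have h := K.above (K.N - n) (by omega) (-s) (fun k hk => by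
      have := h2 (K.N - 1 - k) (by omega) (by omega)
      rw [show K.N - 1 - (K.N - 1 - k) = k by omega] at this
      linarith) (fun k hk hk' => by
      have := h1 (K.N - 1 - k) (by omega)
      rw [show K.N - 1 - (K.N - 1 - k) = k by omega] at this
      linarith) i (by rw [mem_compl] at hi; exact hi)
    linarith
  above n hn s h1 h2 i hi := by
    have h := K.below (K.N - n) (by omega) (-s) (fun k hk => by
      have := h2 (K.N - 1 - k) (by omega) (by omega)
      rw [show K.N - 1 - (K.N - 1 - k) = k by omega] at this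
      linarith) (fun k hk hk' => by
      have := h1 (K.N - 1 - k) (by omega)
      rw [show K.N - 1 - (K.N - 1 - k) = k by omega] at this
      linarith) i (by rw [mem_compl, not_not] at hi; exact hi)
    linarith

end Pool.Agent.Work.MP_e17eac_co.AS
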