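import Pool.Agent.Work.MP_e17eac_co.AS.P_Scale

/-!
# Arbitrary sets, A-I: item Geo (geometry of bad children)
-/

set_option autoImplicit false
set_option linter.unusedSectionVars false
set_option linter.unusedVariables false

namespace Pool.Agent.Work.MP_e17eac_co.AS

open Finset
open Pool.Agent.Work.MP_e17eac_co.DH
open Pool.Agent.Work.MP_e17eac_co.PS
open Pool.Agent.Work.MP_e17eac_co.DH.XSWEEP (GP)
open XScale

namespace XGeo

/-- geometric decrease along a finite set -/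
theorem chain (l : ℕ → ℝ) : ∀ (k : ℕ) (U : Finset ℕ) (hU : U.Nonempty), U.card = k + 1 →
    (∀ u ∈ U, ∀ u' ∈ U, u < u' → 4 * l u' ≤ l u) → (4 : ℝ) ^ k * l (U.max' hU) ≤ l (U.min' hU) := by
  intro k
  induction k with
  | zero =>
    intro U hU hc _
    rw [card_eq_one] at hc
    obtain ⟨x, rfl⟩ := hc
    simp
  | succ k ih =>
    intro U hU hc h
    set m := U.min' hU with hm
    have hmU : m ∈ U := min'_mem U hU
    have hc' : (U.erase m).card = k + 1 := by
      rw [card_erase_of_mem hmU, hc]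
      omega
    have hne : (U.erase m).Nonempty := by
      rw [← card_pos]
      omega
    have h1 := ih (U.erase m) hne hc' (fun u hu u' hu' => h u (mem_of_mem_erase hu) u'
      (mem_of_mem_erase hu'))
    have h2 : (U.erase m).max' hne = U.max' hU := by
      apply le_antisymm
      · exact max'_subset hne (erase_subset _ _)
      · apply le_max'
        rw [mem_erase]
        refine ⟨?_, max'_mem U hU⟩
        obtain ⟨x, hx⟩ := hne
        have h3 := le_max' U x (mem_of_mem_erase hx)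
        have h4 := min'_le U x (mem_of_mem_erase hx)
        have h5 : x ≠ m := ne_of_mem_erase hx
        rw [← hm] at h4
        omega
    have h3 : m < (U.erase m).min' hne := by
      have h4 := min'_mem (U.erase m) hne
      have h5 := min'_le U _ (mem_of_mem_erase h4)
      have h6 := ne_of_mem_erase h4
      rw [← hm] at h5
      omega
    have h4 := h m hmU _ (mem_of_mem_erase (min'_mem (U.erase m) hne)) h3
    rw [h2] at h1
    calc (4 : ℝ) ^ (k + 1) * l (U.max' hU) = 4 * ((4 : ℝ) ^ k * l (U.max' hU)) := by ring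
      _ ≤ 4 * l ((U.erase m).min' hne) := by linarith
      _ ≤ l m := h4

section

variable {ι : Type} [Fintype ι] [DecidableEq ι] (K : KSys ι) {J : ℕ} {f : ℕ → ℕ}

theorem lv_div {i j : ℕ} (hij : i ≤ j) (hj : j ≤ J) (n : ℕ) :
    lv J f i n = lv J f j n / 2 ^ (j - i) := by
  unfold lv
  rw [Nat.div_div_eq_div_mul, ← pow_add]
  congr 2
  omega

theorem i1_spec {N : ℕ} {g : ℕ → ℕ} {c : ℕ} (h : ∃ n, n < N ∧ g n = c) :
    i1 N g c < N ∧ g (i1 N g c) = c := by
  obtain ⟨n, hn⟩ := h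
  have hne : (fib N g c).Nonempty := ⟨n, mem_fib.2 hn⟩
  obtain ⟨x, hx, hx'⟩ := exists_mem_eq_sup (fib N g c) hne id
  have : i1 N g c = x := hx'
  rw [this]
  exact mem_fib.1 hx

theorem le_i1 {N : ℕ} {g : ℕ → ℕ} {c n : ℕ} (h : n < N) (h' : g n = c) : n ≤ i1 N g c :=
  Finset.le_sup (f := id) (mem_fib.2 ⟨h, h'⟩)

theorem t_between {g : ℕ → ℕ} {c n : ℕ} (h : n < K.N) (h' : g n = c) :
    st K g c ≤ K.t n ∧ K.t n ≤ en K g c := by
  have h1 := i1_spec ⟨n, h, h'⟩
  exact ⟨t_mono K (i0_le h h') h, t_mono K (le_i1 h h') h1.1⟩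

theorem en_lt_st (hT : Tower K.N J f) (j : ℕ) {u u' : ℕ} (hu : ∃ n, n < K.N ∧ lv J f j n = u)
    (hu' : ∃ n, n < K.N ∧ lv J f j n = u') (h : u < u') :
    en K (lv J f j) u < st K (lv J f j) u' := by
  have h1 := i1_spec hu
  have h2 := i0_spec hu'
  apply K.t_lt _ _ _ h2.1
  by_contra h3
  have := lv_mono K hT j (not_lt.1 h3) h1.1
  rw [h1.2, h2.2] at this
  omega

end

end XGeo

open XGeo in
theorem I_Geo : StGeo := by
  classical
  intro ι _ _ K J f j0 j1 E β hT h01 h1J h2ι hEN hbad hsh a hja haj c p z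
  -- the witness of `β`
  have key : ∀ n ∈ E, Sepd K J f j0 j1 β a n → ∃ m ∈ E, lv J f j0 m = lv J f j0 n ∧
      K.a m = K.a n ∧ lv J f j1 m = β (lv J f j0 n) (K.a n) ∧
      lv J f (a + 1) n = 2 * (β (lv J f j0 n) (K.a n) / 2 ^ (j1 - a)) ∧
      lv J f (a + 1) m = 2 * (β (lv J f j0 n) (K.a n) / 2 ^ (j1 - a)) + 1 := by
    intro n hn hs
    obtain ⟨⟨m, hm, e1, e2, e3⟩, -⟩ := hsh n hn
    refine ⟨m, hm, e1, e2, e3, ?_⟩
    obtain ⟨s1, s2⟩ := hs
    have d1 : lv J f a m = β (lv J f j0 n) (K.a n) / 2 ^ (j1 - a) := by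
      rw [lv_div haj.le h1J m, e3]
    have d2 : lv J f (a + 1) m = β (lv J f j0 n) (K.a n) / 2 ^ (j1 - (a + 1)) := by
      rw [lv_div (show a + 1 ≤ j1 by omega) h1J m, e3]
    have d3 := lv_half (f := f) (show a + 1 ≤ J by omega) n
    have d4 := lv_half (f := f) (show a + 1 ≤ J by omega) m
    rw [← d2] at s2
    omega
  have hIL : ∀ n ∈ E, Sepd K J f j0 j1 β a n → InLeft K J f a n := by
    intro n hn hs
    obtain ⟨m, hm, e1, e2, e3, e4, e5⟩ := key n hn hs
    refine ⟨by omega, m, ?_⟩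
    rw [mem_fib]
    exact ⟨hEN m hm, by omega⟩
  refine ⟨hIL, ?_⟩
  set F := E.filter (fun n => lv J f j0 n = c ∧ K.a n = p ∧ Sepd K J f j0 j1 β a n ∧
    zc K J f a n = z) with hF
  set U := F.image (lv J f j1) with hU
  by_contra hcon
  push Not at hcon
  have hUex : ∀ u ∈ U, ∃ n ∈ E, lv J f j0 n = c ∧ K.a n = p ∧ Sepd K J f j0 j1 β a n ∧
      zc K J f a n = z ∧ lv J f j1 n = u := by
    intro u hu
    obtain ⟨n, hn, hn'⟩ := mem_image.1 hu
    rw [hF, mem_filter] at hn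
    exact ⟨n, hn.1, hn.2.1, hn.2.2.1, hn.2.2.2.1, hn.2.2.2.2, hn'⟩
  choose! ν hνE hνc hνa hνS hνz hνu using hUex
  have hUne : U.Nonempty := by
    rw [← card_pos]
    omega
  obtain ⟨u0, hu0⟩ := hUne
  -- the shortest child
  obtain ⟨m, hm, m1, m2, m3, -, m5⟩ := key (ν u0) (hνE u0 hu0) (hνS u0 hu0)
  rw [hνc u0 hu0] at m1 m3 m5
  rw [hνa u0 hu0] at m2 m3 m5
  set b := β c p with hb
  set y := b / 2 ^ (j1 - a) with hy
  have hmN := hEN m hm
  have hνN : ∀ u ∈ U, ν u < K.N := fun u hu => hEN _ (hνE u hu)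
  have hleft : ∀ u ∈ U, lv J f (a + 1) (ν u) = 2 * y := by
    intro u hu
    obtain ⟨m', -, -, -, -, e4, -⟩ := key (ν u) (hνE u hu) (hνS u hu)
    rw [hνc u hu, hνa u hu] at e4
    exact e4
  have hILν : ∀ u ∈ U, InLeft K J f a (ν u) := fun u hu => hIL _ (hνE u hu) (hνS u hu)
  obtain ⟨P, P', hC⟩ := cell_ex K hT (hνN u0 hu0) (hILν u0 hu0)
  rw [hleft u0 hu0] at hC
  set g := lv J f j1 with hg
  have hgdiv : ∀ n, lv J f (a + 1) n = g n / 2 ^ (j1 - (a + 1)) :=
    fun n => lv_div (show a + 1 ≤ j1 by omega) h1J n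
  have hub : ∀ u ∈ U, u < b := by
    intro u hu
    by_contra h
    have h1 : b / 2 ^ (j1 - (a + 1)) ≤ u / 2 ^ (j1 - (a + 1)) :=
      Nat.div_le_div_right (not_lt.1 h)
    have h2 := hgdiv (ν u)
    rw [hνu u hu, hleft u hu] at h2
    have h3 := hgdiv m
    rw [m3, m5] at h3
    omega
  have hexu : ∀ u ∈ U, ∃ n, n < K.N ∧ g n = u := fun u hu => ⟨ν u, hνN u hu, hνu u hu⟩
  have hexb : ∃ n, n < K.N ∧ g n = b := ⟨m, hmN, m3⟩
  -- end of a child in the left cell
  have hen : ∀ u ∈ U, en K g u < K.t P' := by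
    intro u hu
    have h1 := i1_spec (hexu u hu)
    have h2 : lv J f (a + 1) (i1 K.N g u) = 2 * y := by
      rw [hgdiv, h1.2, ← hleft u hu, hgdiv, hνu u hu]
    have h3 := (hC.mem _).1 ⟨h1.1, h2⟩
    exact K.t_lt _ _ h3.2 hC.ltN
  have hstb : K.t P' ≤ st K g b := by
    have h1 := i0_spec hexb
    rw [hC.st1]
    have h2 : lv J f (a + 1) (i0 K.N g b) = 2 * y + 1 := by
      rw [hgdiv, h1.2, ← m5, hgdiv, m3]
    exact (t_between K h1.1 h2).1
  -- bad pairs
  have hbadu : ∀ u ∈ U, 15 * (st K g b - en K g u) < 2 * len K g u := by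
    intro u hu
    have h1 := hbad (ν u) (hνE u hu) m hm (by rw [hνc u hu, m1]) (by rw [hνa u hu, m2])
      (by rw [← hg, hνu u hu, m3]; exact hub u hu)
    rw [← hg, hνu u hu, m3] at h1
    have h2 := (hsh (ν u) (hνE u hu)).2 (ν u) (hνE u hu) rfl rfl
    rw [hνc u hu, hνa u hu, ← hg, hνu u hu, ← hb] at h2
    unfold len at h2 ⊢
    linarith
  have hbt : ∀ u ∈ U, st K g u ≤ K.t (ν u) ∧ K.t (ν u) ≤ en K g u :=
    fun u hu => t_between K (hνN u hu) (hνu u hu)
  have hpos : ∀ u ∈ U, 0 < len K g u := by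
    intro u hu
    have h1 := hbadu u hu
    have h2 := hen u hu
    linarith
  have hdec : ∀ u ∈ U, ∀ u' ∈ U, u < u' → 4 * len K g u' ≤ len K g u := by
    intro u hu u' hu' huu
    have h1 := en_lt_st K hT j1 (hexu u hu) (hexu u' hu') huu
    rw [← hg] at h1
    have h2 := hbadu u hu
    have h3 := hen u' hu'
    have h4 := hpos u hu
    have h5 : len K g u' ≤ st K g b - en K g u := by
      unfold len
      linarith
    linarith
  have hup : ∀ u ∈ U, K.t P' - K.t (ν u) ≤ 2 * len K g u := by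
    intro u hu
    have h1 := hbadu u hu
    have h2 := hbt u hu
    have h3 := hpos u hu
    have h4 : st K g b - st K g u = (st K g b - en K g u) + len K g u := by
      unfold len
      ring
    linarith
  have hlo : ∀ u ∈ U, ∀ u' ∈ U, u < u' → len K g u' ≤ K.t P' - K.t (ν u) := by
    intro u hu u' hu' huu
    have h1 := en_lt_st K hT j1 (hexu u hu) (hexu u' hu') huu
    rw [← hg] at h1
    have h2 := hen u' hu'
    have h3 := hbt u hu
    unfold len
    linarith
  have hsc : ∀ u ∈ U, ∀ u' ∈ U, K.t P' - K.t (ν u) <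
      (Fintype.card ι : ℝ) ^ 2 * (K.t P' - K.t (ν u')) := by
    intro u hu u' hu'
    have h1 : zc K J f a (ν u) = zc K J f a (ν u') := by rw [hνz u hu, hνz u' hu']
    unfold zc at h1
    rw [if_pos (hILν u hu), if_pos (hILν u' hu'), Prod.mk.injEq] at h1
    have q1 := (hC.mem (ν u)).1 ⟨hνN u hu, hleft u hu⟩
    have q2 := (hC.mem (ν u')).1 ⟨hνN u' hu', hleft u' hu'⟩
    have r1 := (sc_iff K hC h2ι q1.1 q1.2 _).1 rfl
    have r2 := (sc_iff K hC h2ι q2.1 q2.2 _).1 h1.2.symm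
    set j := sc K J f a (ν u) with hj
    have hb0 : (0 : ℝ) < (Fintype.card ι : ℝ) ^ 2 := by
      have : (0 : ℝ) < Fintype.card ι := by
        have : 0 < Fintype.card ι := by omega
        exact_mod_cast this
      positivity
    have e1 : K.t P' - K.t (ν u) ≤ (K.t P' - K.t P) / ((Fintype.card ι : ℝ) ^ 2) ^ j := by
      have := r1.1
      unfold smp at this
      linarith
    have e2 : (K.t P' - K.t P) / ((Fintype.card ι : ℝ) ^ 2) ^ (j + 1) <
        K.t P' - K.t (ν u') := by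
      have := r2.2
      unfold smp at this
      linarith
    refine lt_of_le_of_lt e1 ?_
    generalize (Fintype.card ι : ℝ) ^ 2 = B at hb0 e2
    have e3 : (K.t P' - K.t P) / B ^ j = B * ((K.t P' - K.t P) / B ^ (j + 1)) := by
      rw [pow_succ, ← div_div, mul_div_cancel₀ _ hb0.ne']
    rw [e3]
    exact mul_lt_mul_of_pos_left e2 hb0
  -- contradiction
  set L := Nat.log 2 (Fintype.card ι) with hL
  have hUne : U.Nonempty := ⟨u0, hu0⟩
  set u1 := U.min' hUne with hu1
  have hu1U : u1 ∈ U := min'_mem U hUne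
  set U' := U.erase u1 with hU'
  have hU'c : U'.card + 1 = U.card := by
    rw [hU', card_erase_of_mem hu1U]
    have : 0 < U.card := card_pos.2 hUne
    omega
  obtain ⟨k, hk⟩ : ∃ k, U'.card = k + 1 := ⟨U'.card - 1, by omega⟩
  have hU'ne : U'.Nonempty := by
    rw [← card_pos]
    omega
  have hsub : ∀ u ∈ U', u ∈ U := fun u hu => mem_of_mem_erase hu
  have h1 := chain (len K g) k U' hU'ne hk (fun u hu u' hu' => hdec u (hsub u hu) u' (hsub u' hu'))
  set u2 := U'.min' hU'ne with hu2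
  set v := U'.max' hU'ne with hv
  have hu2U : u2 ∈ U' := min'_mem U' hU'ne
  have hvU : v ∈ U' := max'_mem U' hU'ne
  have h12 : u1 < u2 := by
    have a1 := min'_le U u2 (hsub u2 hu2U)
    have a2 : u2 ≠ u1 := ne_of_mem_erase hu2U
    rw [← hu1] at a1
    omega
  have h2 := hlo u1 hu1U u2 (hsub u2 hu2U) h12
  have h3 := hsc u1 hu1U v (hsub v hvU)
  have h4 := hup v (hsub v hvU)
  have h5 := hpos v (hsub v hvU)
  have hn0 : (0 : ℝ) < (Fintype.card ι : ℝ) ^ 2 := by
    have : (0 : ℝ) < Fintype.card ι := by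
      have : 0 < Fintype.card ι := by omega
      exact_mod_cast this
    positivity
  have h6 : (4 : ℝ) ^ k * len K g v < (2 * (Fintype.card ι : ℝ) ^ 2) * len K g v := by
    have := mul_le_mul_of_nonneg_left h4 hn0.le
    nlinarith
  have h7 : (4 : ℝ) ^ k < 2 * (Fintype.card ι : ℝ) ^ 2 := lt_of_mul_lt_mul_right h6 h5.le
  have h8 : Fintype.card ι < 2 ^ (L + 1) := Nat.lt_pow_succ_log_self (by norm_num) _
  have h9 : 4 ^ k < 2 * Fintype.card ι ^ 2 := by exact_mod_cast h7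
  have h10 : Fintype.card ι ^ 2 < (2 ^ (L + 1)) ^ 2 := Nat.pow_lt_pow_left h8 (by norm_num)
  have h11 : (4 : ℕ) ^ (L + 2) ≤ 4 ^ k := Nat.pow_le_pow_right (by norm_num) (by omega)
  have h12' : (2 ^ (L + 1)) ^ 2 = 4 ^ (L + 1) := by
    rw [← pow_mul, mul_comm, pow_mul]
    norm_num
  have h13 : (4 : ℕ) ^ (L + 2) = 4 * 4 ^ (L + 1) := by ring
  omega

end Pool.Agent.Work.MP_e17eac_co.AS
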