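import Pool.Agent.Work.MP_e17eac_co.AS.St1
import Pool.Agent.Work.MP_e17eac_co.Bd.B08

/-!
# Arbitrary sets, A-I: item Scale (scale classes)
-/

set_option autoImplicit false
set_option linter.unusedSectionVars false
set_option linter.unusedVariables false

namespace Pool.Agent.Work.MP_e17eac_co.AS

open Finset
open Pool.Agent.Work.MP_e17eac_co.DH
open Pool.Agent.Work.MP_e17eac_co.PS
open Pool.Agent.Work.MP_e17eac_co.DH.XSWEEP (GP)

namespace XScale

section lab

variable {κ : Type} [DecidableEq κ] {N : ℕ} {g : ℕ → κ} {c : κ}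

theorem i0_spec (h : ∃ n, n < N ∧ g n = c) : i0 N g c < N ∧ g (i0 N g c) = c :=
  Nat.sInf_mem h

theorem i0_le {n : ℕ} (h : n < N) (h' : g n = c) : i0 N g c ≤ n := Nat.sInf_le ⟨h, h'⟩

theorem mem_fib {n : ℕ} : n ∈ fib N g c ↔ n < N ∧ g n = c := by
  simp [fib]

theorem fib_ex (h : (fib N g c).Nonempty) : ∃ n, n < N ∧ g n = c := by
  obtain ⟨n, hn⟩ := h
  exact ⟨n, mem_fib.1 hn⟩

/-- a fibre which is an interval -/
theorem ends {p q : ℕ} (hpq : p < q) (h : ∀ n, (n < N ∧ g n = c) ↔ (p ≤ n ∧ n < q)) :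
    i0 N g c = p ∧ i1 N g c + 1 = q := by
  constructor
  · apply le_antisymm
    · have := (h p).2 ⟨le_rfl, hpq⟩
      exact i0_le this.1 this.2
    · have h1 := (h p).2 ⟨le_rfl, hpq⟩
      have h2 := i0_spec ⟨p, h1⟩
      exact ((h _).1 h2).1
  · have h1 : fib N g c = Ico p q := by
      ext n
      rw [mem_fib, mem_Ico, h]
    unfold i1
    rw [h1]
    have h2 : (Ico p q).sup id = q - 1 := by
      apply le_antisymm
      · apply Finset.sup_le
        intro n hn
        rw [mem_Ico] at hn
        simp only [id]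
        omega
      · exact Finset.le_sup (f := id) (mem_Ico.2 ⟨by omega, by omega⟩)
    rw [h2]
    omega

end lab

section main

variable {ι : Type} [Fintype ι] [DecidableEq ι] (K : KSys ι)

theorem S_card : ∀ n, n ≤ K.N → (K.S n).card = (K.S 0).card := by
  intro n
  induction n with
  | zero => intro _; rfl
  | succ n ih =>
    intro hn
    have haS := K.a_mem n (by omega)
    have hbS := K.b_mem n (by omega)
    rw [← ih (by omega), K.S_succ n (by omega), card_insert_of_notMem, card_erase_of_mem haS]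
    · have : 0 < (K.S n).card := card_pos.2 ⟨_, haS⟩
      omega
    · intro h
      exact hbS (mem_of_mem_erase h)

theorem t_mono {n k : ℕ} (h1 : n ≤ k) (h2 : k < K.N) : K.t n ≤ K.t k := by
  rcases h1.lt_or_eq with h | h
  · exact (K.t_lt n k h h2).le
  · rw [h]

theorem lt_idx {s : ℝ} {n : ℕ} : n < K.idx s ↔ n < K.N ∧ K.t n < s := (I_IDX ι K).2.1 n s

theorem idx_valid (s : ℝ) : K.Valid (K.idx s) s := (I_IDX ι K).1 s

variable {J : ℕ} {f : ℕ → ℕ}

theorem lv_mono (hT : Tower K.N J f) (j : ℕ) {n n' : ℕ} (h : n ≤ n') (h' : n' < K.N) :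
    lv J f j n ≤ lv J f j n' := Nat.div_le_div_right (hT.mono n n' h h')

theorem lv_half {a : ℕ} (ha : a + 1 ≤ J) (n : ℕ) : lv J f a n = lv J f (a + 1) n / 2 := by
  unfold lv
  rw [Nat.div_div_eq_div_mul, ← pow_succ]
  congr 2
  omega

/-- the data of a left cell -/
structure Cell (J : ℕ) (f : ℕ → ℕ) (a c : ℕ) (P P' : ℕ) : Prop where
  lt : P < P'
  ltN : P' < K.N
  st0 : K.t P = st K (lv J f (a + 1)) c
  st1 : K.t P' = st K (lv J f (a + 1)) (c + 1)
  mem : ∀ n, (n < K.N ∧ lv J f (a + 1) n = c) ↔ (P ≤ n ∧ n < P')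
  even : c % 2 = 0
  ne : (fib K.N (lv J f (a + 1)) (c + 1)).Nonempty

theorem cell_ex (hT : Tower K.N J f) {a n : ℕ} (hn : n < K.N) (hL : InLeft K J f a n) :
    ∃ P P', Cell K J f a (lv J f (a + 1) n) P P' := by
  set g := lv J f (a + 1) with hg
  set c := g n with hc
  have h1 : ∃ m, m < K.N ∧ g m = c := ⟨n, hn, rfl⟩
  have h2 : ∃ m, m < K.N ∧ g m = c + 1 := fib_ex hL.2
  have a1 := i0_spec h1
  have a2 := i0_spec h2
  refine ⟨i0 K.N g c, i0 K.N g (c + 1), ?_, a2.1, rfl, rfl, ?_, hL.1, hL.2⟩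
  · by_contra h3
    have := lv_mono K hT (a + 1) (not_lt.1 h3) a1.1
    rw [← hg, a1.2, a2.2] at this
    omega
  · intro m
    constructor
    · rintro ⟨h3, h4⟩
      refine ⟨i0_le h3 h4, ?_⟩
      by_contra h5
      have := lv_mono K hT (a + 1) (not_lt.1 h5) h3
      have h4' : g m = c := h4
      rw [← hg, a2.2, h4'] at this
      omega
    · rintro ⟨h3, h4⟩
      have h5 : m < K.N := by omega
      have h6 := lv_mono K hT (a + 1) h3 h5
      have h7 := lv_mono K hT (a + 1) h4.le a2.1
      rw [← hg, a1.2] at h6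
      rw [← hg, a2.2] at h7
      refine ⟨h5, ?_⟩
      have h8 : g m ≠ c + 1 := fun h => by
        have := i0_le h5 h
        omega
      show g m = c
      omega

variable {a c P P' : ℕ} (hC : Cell K J f a c P P')

/-- the sample times -/
noncomputable def smp (K : KSys ι) (P P' j : ℕ) : ℝ :=
  K.t P' - (K.t P' - K.t P) / ((Fintype.card ι : ℝ) ^ 2) ^ j

include hC

theorem pos : 0 < K.t P' - K.t P := by
  have := K.t_lt P P' hC.lt hC.ltN
  linarith

theorem inLeft {n : ℕ} (h1 : P ≤ n) (h2 : n < P') : InLeft K J f a n := by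
  have h := ((hC.mem n).2 ⟨h1, h2⟩).2
  unfold InLeft
  rw [h]
  exact ⟨hC.even, hC.ne⟩

theorem sc_iff (h2ι : 2 ≤ Fintype.card ι) {n : ℕ} (h1 : P ≤ n) (h2 : n < P') (j : ℕ) :
    sc K J f a n = j ↔ (smp K P P' j ≤ K.t n ∧ K.t n < smp K P P' (j + 1)) := by
  have h := ((hC.mem n).2 ⟨h1, h2⟩).2
  have hpos := pos K hC
  have hn : K.t n < K.t P' := K.t_lt n P' h2 hC.ltN
  have hn' : K.t P ≤ K.t n := t_mono K h1 (by have := hC.ltN; omega)
  set b : ℝ := (Fintype.card ι : ℝ) ^ 2 with hb
  have hb1 : 1 < b := by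
    have : (2 : ℝ) ≤ Fintype.card ι := by exact_mod_cast h2ι
    rw [hb]
    nlinarith
  have hb0 : 0 < b := by linarith
  unfold sc smp
  rw [h, ← hC.st0, ← hC.st1, ← hb]
  have hd : 0 < K.t P' - K.t n := by linarith
  have hr : 1 ≤ (K.t P' - K.t P) / (K.t P' - K.t n) := by
    rw [le_div_iff₀ hd]
    linarith
  have hr0 : 0 < (K.t P' - K.t P) / (K.t P' - K.t n) := by linarith
  rw [Nat.floor_eq_iff (Real.logb_nonneg hb1 hr), Real.le_logb_iff_rpow_le hb1 hr0,
    Real.logb_lt_iff_lt_rpow hb1 hr0]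
  have e1 : (b : ℝ) ^ ((j : ℝ) + 1) = b ^ (j + 1) := by
    rw [← Real.rpow_natCast]
    push_cast
    rfl
  rw [Real.rpow_natCast, e1, le_div_iff₀ hd, div_lt_iff₀ hd]
  have hbj : 0 < b ^ j := by positivity
  have hbj1 : 0 < b ^ (j + 1) := by positivity
  constructor
  · rintro ⟨h3, h4⟩
    constructor
    · have : K.t P' - K.t n ≤ (K.t P' - K.t P) / b ^ j := by
        rw [le_div_iff₀ hbj]
        linarith
      linarith
    · have : (K.t P' - K.t P) / b ^ (j + 1) < K.t P' - K.t n := by
        rw [div_lt_iff₀ hbj1]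
        linarith
      linarith
  · rintro ⟨h3, h4⟩
    constructor
    · have : K.t P' - K.t n ≤ (K.t P' - K.t P) / b ^ j := by linarith
      rw [le_div_iff₀ hbj] at this
      linarith
    · have : (K.t P' - K.t P) / b ^ (j + 1) < K.t P' - K.t n := by linarith
      rw [div_lt_iff₀ hbj1] at this
      linarith

theorem smp_lo (h2ι : 2 ≤ Fintype.card ι) (j : ℕ) : K.t P ≤ smp K P P' j := by
  have hpos := pos K hC
  have hb1 : (1 : ℝ) ≤ ((Fintype.card ι : ℝ) ^ 2) ^ j := by
    apply one_le_pow₀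
    have : (2 : ℝ) ≤ Fintype.card ι := by exact_mod_cast h2ι
    nlinarith
  have : (K.t P' - K.t P) / ((Fintype.card ι : ℝ) ^ 2) ^ j ≤ K.t P' - K.t P :=
    div_le_self hpos.le hb1
  unfold smp
  linarith

theorem smp_hi (h2ι : 2 ≤ Fintype.card ι) (j : ℕ) : smp K P P' j < K.t P' := by
  have hpos := pos K hC
  have h0 : (0 : ℝ) < Fintype.card ι := by
    have : 0 < Fintype.card ι := by omega
    exact_mod_cast this
  have : 0 < (K.t P' - K.t P) / ((Fintype.card ι : ℝ) ^ 2) ^ j := by positivity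
  unfold smp
  linarith

theorem smp_mono (h2ι : 2 ≤ Fintype.card ι) {j j' : ℕ} (h : j ≤ j') :
    smp K P P' j ≤ smp K P P' j' := by
  have hpos := pos K hC
  have hb1 : (1 : ℝ) ≤ (Fintype.card ι : ℝ) ^ 2 := by
    have : (2 : ℝ) ≤ Fintype.card ι := by exact_mod_cast h2ι
    nlinarith
  have h1 : (K.t P' - K.t P) / ((Fintype.card ι : ℝ) ^ 2) ^ j' ≤
      (K.t P' - K.t P) / ((Fintype.card ι : ℝ) ^ 2) ^ j :=
    div_le_div_of_nonneg_left hpos.le (by positivity) (pow_le_pow_right₀ hb1 h)
  unfold smp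
  linarith

/-- the fibre of a scale class -/
theorem fib_zc (h2ι : 2 ≤ Fintype.card ι) (j n : ℕ) :
    (n < K.N ∧ zc K J f a n = (c, j)) ↔
      (K.idx (smp K P P' j) ≤ n ∧ n < K.idx (smp K P P' (j + 1))) := by
  have hltN := hC.ltN
  constructor
  · rintro ⟨h1, h2⟩
    unfold zc at h2
    rw [Prod.mk.injEq] at h2
    obtain ⟨h3, h4⟩ := h2
    obtain ⟨h5, h6⟩ := (hC.mem n).1 ⟨h1, h3⟩
    rw [if_pos (inLeft K hC h5 h6)] at h4
    have h7 := (sc_iff K hC h2ι h5 h6 j).1 h4
    constructor
    · by_contra h8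
      have := (lt_idx K).1 (not_le.1 h8)
      linarith [this.2, h7.1]
    · exact (lt_idx K).2 ⟨h1, h7.2⟩
  · rintro ⟨h1, h2⟩
    have h3 := (lt_idx K).1 h2
    have h4 : smp K P P' j ≤ K.t n := by
      by_contra h5
      have := (lt_idx K).2 ⟨h3.1, not_le.1 h5⟩
      omega
    have h5 : P ≤ n := by
      by_contra h6
      have := K.t_lt n P (by omega) (by have := hC.lt; omega)
      have := smp_lo K hC h2ι j
      linarith
    have h6 : n < P' := by
      by_contra h7
      have := t_mono K (not_lt.1 h7) h3.1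
      have := smp_hi K hC h2ι (j + 1)
      linarith [h3.2]
    refine ⟨h3.1, ?_⟩
    unfold zc
    rw [if_pos (inLeft K hC h5 h6), ((hC.mem n).2 ⟨h5, h6⟩).2,
      (sc_iff K hC h2ι h5 h6 j).2 ⟨h4, h3.2⟩]

/-- net flips of a scale class -/
theorem nf_zc (h2ι : 2 ≤ Fintype.card ι) (j : ℕ) (hne : ∃ n, n < K.N ∧ zc K J f a n = (c, j)) :
    nf K (zc K J f a) (c, j) =
      (K.S (K.idx (smp K P P' (j + 1))) \ K.S (K.idx (smp K P P' j))).card := by
  obtain ⟨n, hn⟩ := hne
  have h1 := (fib_zc K hC h2ι j n).1 hn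
  obtain ⟨e1, e2⟩ := ends (c := (c, j)) (g := zc K J f a) (N := K.N)
    (p := K.idx (smp K P P' j)) (q := K.idx (smp K P P' (j + 1))) (by omega)
    (fun n => fib_zc K hC h2ι j n)
  unfold nf
  rw [e1, e2]
  apply card_sdiff_comm
  rw [S_card K _ (idx_valid K _).1, S_card K _ (idx_valid K _).1]

/-- the sum over one cell -/
theorem sum_cell (hx : Function.Injective K.x) (h2ι : 2 ≤ Fintype.card ι) (w : ℕ) (hw : 1 ≤ w)
    (M : ℕ) :
    ∑ j ∈ range M, (K.S (K.idx (smp K P P' (j + 1))) \ K.S (K.idx (smp K P P' j))).card ≤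
      TROP.TB (K.lines (Ico P P')).card w := by
  refine TROP.ksamp_left K hx P P' hC.ltN.le M w hw (K.t P') (fun j => K.idx (smp K P P' j))
    (fun j => smp K P P' j) ?_ (fun j _ => idx_valid K _) (fun j _ => smp_hi K hC h2ι j) ?_
  · intro j _
    constructor
    · by_contra h
      have hlt : P < K.N := by have := hC.lt; have := hC.ltN; omega
      have h1 : ¬ P < K.idx (smp K P P' j) := by omega
      have h2 : K.idx (smp K P P' j) < P := not_le.1 h
      have hv := (idx_valid K (smp K P P' j)).2.2 (K.idx (smp K P P' j)) le_rfl (by omega)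
      have := K.t_lt _ P h2 hlt
      have := smp_lo K hC h2ι j
      linarith
    · by_contra h
      have h1 := (lt_idx K).1 (not_le.1 h)
      have := smp_hi K hC h2ι j
      linarith [h1.2]
  · intro j _
    have hpos := pos K hC
    have h0 : (0 : ℝ) < Fintype.card ι := by
      have : 0 < Fintype.card ι := by omega
      exact_mod_cast this
    have hV : ((K.lines (Ico P P')).card : ℝ) ≤ Fintype.card ι := by
      exact_mod_cast card_le_univ _
    have hV2 : ((K.lines (Ico P P')).card : ℝ) ^ 2 ≤ (Fintype.card ι : ℝ) ^ 2 :=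
      pow_le_pow_left₀ (by positivity) hV 2
    have e1 : ∀ i, K.t P' - smp K P P' i =
        (K.t P' - K.t P) / ((Fintype.card ι : ℝ) ^ 2) ^ i := fun i => by
      unfold smp
      ring
    rw [e1, e1]
    calc ((K.lines (Ico P P')).card : ℝ) ^ 2 *
          ((K.t P' - K.t P) / ((Fintype.card ι : ℝ) ^ 2) ^ (j + 1))
        ≤ (Fintype.card ι : ℝ) ^ 2 *
          ((K.t P' - K.t P) / ((Fintype.card ι : ℝ) ^ 2) ^ (j + 1)) :=
          mul_le_mul_of_nonneg_right hV2 (by positivity)
      _ = (K.t P' - K.t P) / ((Fintype.card ι : ℝ) ^ 2) ^ j := by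
          have hb : (Fintype.card ι : ℝ) ^ 2 ≠ 0 := by positivity
          generalize (Fintype.card ι : ℝ) ^ 2 = b at hb
          rw [pow_succ, ← div_div, mul_div_cancel₀ _ hb]

end main

end XScale

open XScale in
theorem I_Scale : StScale := by
  classical
  intro ι _ _ K J f B hx hT h2ι hTB a ha
  constructor
  · -- convexity
    intro n1 n2 n3 h12 h23 h3 heq
    unfold zc at heq ⊢
    rw [Prod.mk.injEq] at heq
    obtain ⟨e1, e2⟩ := heq
    have m1 := lv_mono K hT (a + 1) h12 (by omega)
    have m2 := lv_mono K hT (a + 1) h23 h3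
    have e3 : lv J f (a + 1) n2 = lv J f (a + 1) n1 := by omega
    have l3 : InLeft K J f a n3 ↔ InLeft K J f a n1 := by
      unfold InLeft
      rw [e1]
    have l2 : InLeft K J f a n2 ↔ InLeft K J f a n1 := by
      unfold InLeft
      rw [e3]
    rw [Prod.mk.injEq]
    refine ⟨e3, ?_⟩
    by_cases hL : InLeft K J f a n1
    · rw [if_pos hL, if_pos (l3.2 hL)] at e2
      rw [if_pos hL, if_pos (l2.2 hL)]
      obtain ⟨P, P', hC⟩ := cell_ex K hT (show n1 < K.N by omega) hL
      have q1 := (hC.mem n1).1 ⟨by omega, rfl⟩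
      have q2 := (hC.mem n2).1 ⟨by omega, e3⟩
      have q3 := (hC.mem n3).1 ⟨h3, e1.symm⟩
      have r1 := (sc_iff K hC h2ι q1.1 q1.2 _).1 rfl
      have r3 := (sc_iff K hC h2ι q3.1 q3.2 _).1 e2.symm
      have t12 := t_mono K h12 (show n2 < K.N by omega)
      have t23 := t_mono K h23 h3
      exact (sc_iff K hC h2ι q2.1 q2.2 _).2 ⟨r1.1.trans t12, lt_of_le_of_lt t23 r3.2⟩
    · rw [if_neg hL, if_neg (fun h => hL (l2.1 h))]
  · -- the sum
    set Z := ((range K.N).filter (fun n => InLeft K J f a n)).image (zc K J f a) with hZ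
    have hZmem : ∀ z ∈ Z, ∃ n, n < K.N ∧ InLeft K J f a n ∧ zc K J f a n = z := by
      intro z hz
      obtain ⟨n, hn, hn'⟩ := mem_image.1 hz
      rw [mem_filter, mem_range] at hn
      exact ⟨n, hn.1, hn.2, hn'⟩
    have hfst : ∀ n, (zc K J f a n).1 = lv J f (a + 1) n := fun n => rfl
    rw [← sum_fiberwise_of_maps_to (s := Z) (t := Z.image Prod.fst) (g := Prod.fst)
      (fun z hz => mem_image_of_mem _ hz)]
    have hcell : ∀ c ∈ Z.image Prod.fst, c % 2 = 0 ∧ c / 2 < 2 ^ a ∧
        (∑ z ∈ Z.filter (fun z => z.1 = c), (nf K (zc K J f a) z : ℝ)) ≤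
          B * (V K (lv J f a) (c / 2) : ℝ) := by
      intro c hc
      obtain ⟨z0, hz0, rfl⟩ := mem_image.1 hc
      obtain ⟨n0, hn0, hL0, rfl⟩ := hZmem z0 hz0
      rw [hfst]
      obtain ⟨P, P', hC⟩ := cell_ex K hT hn0 hL0
      set c := lv J f (a + 1) n0 with hcdef
      refine ⟨hC.even, ?_, ?_⟩
      · rw [hcdef, ← lv_half ha]
        unfold lv
        rw [Nat.div_lt_iff_lt_mul (by positivity), ← pow_add]
        have : a + (J - a) = J := by omega
        rw [this]
        exact hT.lt n0 hn0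
      · obtain ⟨w, hw, hw'⟩ := hTB (K.lines (Ico P P')).card (card_le_univ _)
        set M := (Z.image Prod.snd).sup id + 1 with hM
        have h1 := sum_cell K hC hx h2ι w hw M
        have h2 : ∑ z ∈ Z.filter (fun z => z.1 = c), nf K (zc K J f a) z ≤
            ∑ j ∈ range M, (K.S (K.idx (smp K P P' (j + 1))) \
              K.S (K.idx (smp K P P' j))).card := by
          have h3 : ∑ z ∈ Z.filter (fun z => z.1 = c), nf K (zc K J f a) z =
              ∑ z ∈ Z.filter (fun z => z.1 = c), (K.S (K.idx (smp K P P' (z.2 + 1))) \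
              K.S (K.idx (smp K P P' z.2))).card := by
            refine sum_congr rfl fun z hz => ?_
            rw [mem_filter] at hz
            obtain ⟨n, hn, _, hn'⟩ := hZmem z hz.1
            have e : z = (c, z.2) := Prod.ext hz.2 rfl
            have h4 := nf_zc K hC h2ι z.2 ⟨n, hn, by rw [hn', ← e]⟩
            rw [← e] at h4
            exact h4
          rw [h3]
          rw [← sum_image (s := Z.filter (fun z => z.1 = c)) (g := Prod.snd)
            (f := fun j => (K.S (K.idx (smp K P P' (j + 1))) \ K.S (K.idx (smp K P P' j))).card)]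
          · apply sum_le_sum_of_subset
            intro j hj
            obtain ⟨z, hz, rfl⟩ := mem_image.1 hj
            rw [mem_range, hM]
            have : z.2 ≤ (Z.image Prod.snd).sup id :=
              Finset.le_sup (f := id) (mem_image_of_mem _ (mem_filter.1 hz).1)
            omega
          · intro z hz z' hz' h
            rw [mem_coe, mem_filter] at hz hz'
            exact Prod.ext (hz.2.trans hz'.2.symm) h
        have h3 : (K.lines (Ico P P')).card ≤ V K (lv J f a) (c / 2) := by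
          unfold V
          apply card_le_card
          have hsub : Ico P P' ⊆ fib K.N (lv J f a) (c / 2) := by
            intro n hn
            rw [mem_Ico] at hn
            have := (hC.mem n).2 hn
            rw [mem_fib, lv_half ha, this.2]
            exact ⟨this.1, rfl⟩
          unfold KSys.lines
          exact union_subset_union (image_subset_image hsub) (image_subset_image hsub)
        have h4 : ((∑ z ∈ Z.filter (fun z => z.1 = c), nf K (zc K J f a) z : ℕ) : ℝ) ≤
            B * ((K.lines (Ico P P')).card : ℝ) := by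
          refine le_trans ?_ hw'
          exact_mod_cast h2.trans h1
        rw [Nat.cast_sum] at h4
        refine h4.trans ?_
        rcases Nat.eq_zero_or_pos (K.lines (Ico P P')).card with h0 | h0
        · exfalso
          rw [card_eq_zero] at h0
          have h5 : K.a P ∈ K.lines (Ico P P') :=
            mem_union_left _ (mem_image_of_mem _ (mem_Ico.2 ⟨le_rfl, hC.lt⟩))
          rw [h0] at h5
          exact absurd h5 (notMem_empty _)
        · have hv0 : (0 : ℝ) < ((K.lines (Ico P P')).card : ℝ) := by exact_mod_cast h0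
          have hB : 0 ≤ B := by
            have h5 : (0 : ℝ) ≤ B * ((K.lines (Ico P P')).card : ℝ) :=
              le_trans (Nat.cast_nonneg _) hw'
            by_contra h6
            have := mul_neg_of_neg_of_pos (not_le.1 h6) hv0
            linarith
          refine mul_le_mul_of_nonneg_left ?_ hB
          exact_mod_cast h3
    refine (sum_le_sum fun c hc => (hcell c hc).2.2).trans ?_
    rcases (Z.image Prod.fst).eq_empty_or_nonempty with hZe | ⟨c0, hc0⟩
    · rw [hZe, sum_empty]
      have hB : 0 ≤ B * ∑ y ∈ range (2 ^ a), (V K (lv J f a) y : ℝ) := by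
        obtain ⟨w, _, hw⟩ := hTB 1 (by omega)
        have : 0 ≤ B := by
          have h5 : (0 : ℝ) ≤ (TROP.TB 1 w : ℝ) := Nat.cast_nonneg _
          simp only [Nat.cast_one, mul_one] at hw
          linarith
        positivity
      exact hB
    · have hB : 0 ≤ B := by
        obtain ⟨w, _, hw⟩ := hTB 1 (by omega)
        have h5 : (0 : ℝ) ≤ (TROP.TB 1 w : ℝ) := Nat.cast_nonneg _
        simp only [Nat.cast_one, mul_one] at hw
        linarith
      rw [← mul_sum]
      refine mul_le_mul_of_nonneg_left ?_ hB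
      rw [← sum_image (s := Z.image Prod.fst) (g := fun c => c / 2)
        (f := fun y => (V K (lv J f a) y : ℝ))]
      · apply sum_le_sum_of_subset_of_nonneg
        · intro y hy
          obtain ⟨c, hc, rfl⟩ := mem_image.1 hy
          exact mem_range.2 (hcell c hc).2.1
        · intro y _ _
          exact Nat.cast_nonneg _
      · intro c hc c' hc' h
        have h1 := (hcell c hc).1
        have h2 := (hcell c' hc').1
        simp only at h
        omega

end Pool.Agent.Work.MP_e17eac_co.AS
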