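import Pool.Agent.Work.MP_e17eac_co.AS.Defs

/-!
# Arbitrary sets, part A-I (good pair lemma): statements
-/

namespace Pool.Agent.Work.MP_e17eac_co.AS

open Finset
open scoped Classical
open Pool.Agent.Work.MP_e17eac_co.DH
open Pool.Agent.Work.MP_e17eac_co.PS
open Pool.Agent.Work.MP_e17eac_co.DH.XSWEEP (GP)

/-- Basic properties of convex labellings. -/
def StFib : Prop := ∀ (κ : Type) [DecidableEq κ] (N : ℕ) (g : ℕ → κ), Cvx N g → ∀ c,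
  (∀ n, n ∈ fib N g c ↔ n < N ∧ g n = c) ∧
  ((fib N g c).Nonempty → i0 N g c ∈ fib N g c ∧ i1 N g c ∈ fib N g c ∧ i0 N g c ≤ i1 N g c ∧
    fib N g c = Ico (i0 N g c) (i1 N g c + 1)) ∧
  ∀ n, n < N → i0 N g (g n) ≤ n ∧ n ≤ i1 N g (g n)

/-- Basic properties of towers. -/
def StTow : Prop := ∀ (N J : ℕ) (f : ℕ → ℕ), Tower N J f → ∀ j, j ≤ J →
  Cvx N (lv J f j) ∧ (∀ n n', n ≤ n' → n' < N → lv J f j n ≤ lv J f j n') ∧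
  (∀ n, n < N → lv J f j n < 2 ^ j) ∧ (∀ c, (fib N (lv J f j) c).card * 2 ^ j ≤ 2 * N) ∧
  (∀ i n, i ≤ j → lv J f i n = lv J f j n / 2 ^ (j - i)) ∧
  (∀ n, lv J f 0 n = f n / 2 ^ J)

/-- The mass tower. -/
def StMf : Prop := ∀ N J : ℕ, 2 ^ J ≤ N → Tower N J (mf N J)

/-- T2 for convex labellings. -/
def StT2L : Prop := ∃ C : ℝ, 1 ≤ C ∧ ∀ (ι : Type) [Fintype ι] [DecidableEq ι] (K : KSys ι),
  Function.Injective K.x → GP K.x K.y →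
  (K.N : ℝ) ≤ C * (Fintype.card ι : ℝ) ^ ((4 : ℝ) / 3) ∧
  ∀ (κ : Type) [DecidableEq κ] (g : ℕ → κ), Cvx K.N g → ∀ A : Finset κ,
  (∑ c ∈ A, (V K g c : ℝ) ≤ C * Fintype.card ι * (A.card : ℝ) ^ ((1 : ℝ) / 4)) ∧
  ∀ lam : ℝ, 0 < lam → (∀ c ∈ A, lam ≤ (V K g c : ℝ)) →
    (A.card : ℝ) ≤ (C * Fintype.card ι / lam) ^ ((4 : ℝ) / 3)

/-- Dey's bound for a set of edges in an index window. -/
def StDeyW : Prop := ∀ (ι : Type) [Fintype ι] [DecidableEq ι] (K : KSys ι),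
  Function.Injective K.x → ∀ p q : ℕ, q ≤ K.N → ∀ E ⊆ Ico p q,
  E.card ^ 3 ≤ 4096 * ((E.image K.a).card * (K.lines (Ico p q)).card ^ 3)

/-- Step 1: few edges of `E` lie in one chosen cell of level `j0 + D` per pair (cell of level
`j0`, line). -/
def StS1 : Prop := ∃ C : ℝ, 1 ≤ C ∧ ∀ (ι : Type) [Fintype ι] [DecidableEq ι] (K : KSys ι)
  (J : ℕ) (f : ℕ → ℕ) (j0 j1 : ℕ) (B : ℝ) (E : Finset ℕ), C ≤ B → GPH K J f j0 j1 B E →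
  ∀ (D : ℕ) (Y : ℕ → ι → ℕ) (E' : Finset ℕ), j0 + D ≤ j1 → B ^ 180 ≤ 2 ^ D → E' ⊆ E →
  (∀ n ∈ E', lv J f (j0 + D) n = Y (lv J f j0 n) (K.a n)) →
  B ^ 6 * (E'.card : ℝ) ≤ (E.card : ℝ)

/-- Scale classes: they are index windows, and the sum of their net flips is small. -/
def StScale : Prop := ∀ (ι : Type) [Fintype ι] [DecidableEq ι] (K : KSys ι) (J : ℕ) (f : ℕ → ℕ)
  (B : ℝ), Function.Injective K.x → Tower K.N J f → 2 ≤ Fintype.card ι →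
  (∀ v : ℕ, v ≤ Fintype.card ι → ∃ w, 1 ≤ w ∧ (TROP.TB v w : ℝ) ≤ B * v) →
  ∀ a, a + 1 ≤ J → Cvx K.N (zc K J f a) ∧
  ∑ z ∈ ((range K.N).filter (fun n => InLeft K J f a n)).image (zc K J f a),
    (nf K (zc K J f a) z : ℝ) ≤ B * ∑ y ∈ range (2 ^ a), (V K (lv J f a) y : ℝ)

/-- Sum of the edges of small windows (pure numbers). -/
def StSumL : Prop := ∀ C : ℝ, 1 ≤ C → ∃ C' : ℝ, 1 ≤ C' ∧ ∀ (κ : Type) (Z : Finset κ)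
  (v c e : κ → ℕ) (n : ℕ) (lam0 : ℝ), 1 ≤ n → 0 < lam0 →
  (∀ lam : ℝ, 0 < lam → ∀ Z' ⊆ Z, (∀ z ∈ Z', lam ≤ (v z : ℝ)) →
    (Z'.card : ℝ) ≤ (C * n / lam) ^ ((4 : ℝ) / 3)) →
  (∀ z ∈ Z, e z ^ 3 ≤ 32768 * v z ^ 3 * c z) → (∀ z ∈ Z, v z ≤ n) →
  (∀ z ∈ Z, (v z : ℝ) ≤ lam0) →
  ∑ z ∈ Z, (e z : ℝ) ≤ C' * ((Nat.log 2 n : ℝ) + 2) * (n : ℝ) ^ ((8 : ℝ) / 9) *
    lam0 ^ ((1 : ℝ) / 9) * (∑ z ∈ Z, (c z : ℝ)) ^ ((1 : ℝ) / 3)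

/-- The edges in small scale classes. -/
noncomputable def SmallE {ι : Type} [Fintype ι] [DecidableEq ι] (K : KSys ι) (J : ℕ) (f : ℕ → ℕ)
    (a : ℕ) (lam0 : ℝ) : Finset ℕ :=
    (range K.N).filter (fun n => InLeft K J f a n ∧ (V K (zc K J f a) (zc K J f a n) : ℝ) ≤ lam0)

/-- Step 2, first half: few edges lie in small scale classes. -/
def StS2a : Prop := ∃ C : ℝ, 1 ≤ C ∧ ∀ (ι : Type) [Fintype ι] [DecidableEq ι] (K : KSys ι)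
  (J : ℕ) (f : ℕ → ℕ) (j0 j1 : ℕ) (B : ℝ) (E : Finset ℕ), C ≤ B → GPH K J f j0 j1 B E →
  ∀ a, a + 1 ≤ J →
  B ^ 7 * ((SmallE K J f a (Fintype.card ι * (2 ^ a * B ^ 120) ^ (-((3 : ℝ) / 4)))).card : ℝ) ≤
    (E.card : ℝ)

/-- Geometry of bad children: the children of one pair which are separated from `β` at one level
and meet one scale class are few. -/
def StGeo : Prop := ∀ (ι : Type) [Fintype ι] [DecidableEq ι] (K : KSys ι) (J : ℕ) (f : ℕ → ℕ)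
  (j0 j1 : ℕ) (E : Finset ℕ) (β : ℕ → ι → ℕ), Tower K.N J f → j0 ≤ j1 → j1 ≤ J →
  2 ≤ Fintype.card ι → (∀ n ∈ E, n < K.N) → AllBad K J f j0 j1 E → Shortest K J f j0 j1 E β →
  ∀ a, j0 ≤ a → a < j1 → ∀ (c : ℕ) (p : ι) (z : ℕ × ℕ),
  (∀ n ∈ E, Sepd K J f j0 j1 β a n → InLeft K J f a n) ∧
  (((E.filter (fun n => lv J f j0 n = c ∧ K.a n = p ∧ Sepd K J f j0 j1 β a n ∧
    zc K J f a n = z)).image (lv J f j1)).card ≤ Nat.log 2 (Fintype.card ι) + 4)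

/-- Step 2, second half: too many separated edges contradict T2. -/
def StS2b : Prop := ∃ C : ℝ, 1 ≤ C ∧ ∀ (ι : Type) [Fintype ι] [DecidableEq ι] (K : KSys ι)
  (J : ℕ) (f : ℕ → ℕ) (j0 j1 : ℕ) (B : ℝ) (E : Finset ℕ) (β : ℕ → ι → ℕ), C ≤ B →
  GPH K J f j0 j1 B E → AllBad K J f j0 j1 E → Shortest K J f j0 j1 E β →
  ∀ a D, j0 ≤ a → a < j0 + D → j0 + D ≤ j1 → (2 : ℝ) ^ D ≤ 2 * B ^ 180 →
  (E.card : ℝ) ≤ B ^ 4 * ((E.filter (fun n => Sepd K J f j0 j1 β a n)).card : ℝ) →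
  B ^ 400 ≤ (2 : ℝ) ^ (j1 - j0) → False

/-- The numbers of visited children. -/
def StNch : Prop := ∀ (ι : Type) [Fintype ι] [DecidableEq ι] (K : KSys ι)
  (J : ℕ) (f : ℕ → ℕ) (j0 j1 : ℕ) (B : ℝ) (E : Finset ℕ), GPH K J f j0 j1 B E →
  B ^ 400 ≤ (2 : ℝ) ^ (j1 - j0) → ∀ n ∈ E, B ≤ ((Ch K J f j0 j1 E n).card : ℝ)

/-- Branches and pigeonhole: many edges are separated from `β` at one level. -/
def StBr : Prop := ∀ (ι : Type) [Fintype ι] [DecidableEq ι] (K : KSys ι)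
  (J : ℕ) (f : ℕ → ℕ) (j0 j1 : ℕ) (B : ℝ) (E : Finset ℕ) (β : ℕ → ι → ℕ) (D : ℕ),
  GPH K J f j0 j1 B E → (∀ n ∈ E, B ≤ ((Ch K J f j0 j1 E n).card : ℝ)) → j0 + D ≤ j1 →
  20 * (D : ℝ) ≤ B ^ 2 →
  ((E.card : ℝ) ≤
    2 * ((E.filter (fun n => LeftRich K J f j0 j1 E β n)).card : ℝ)) →
  B ^ 6 * ((E.filter (fun n => lv J f (j0 + D) n =
    β (lv J f j0 n) (K.a n) / 2 ^ (j1 - (j0 + D)))).card : ℝ) ≤ (E.card : ℝ) →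
  ∃ a, j0 ≤ a ∧ a < j0 + D ∧
    ((E.card : ℝ) ≤
      B ^ 4 * ((E.filter (fun n => Sepd K J f j0 j1 β a n)).card : ℝ))

/-- **Core** of the good pair lemma, left branch. -/
def StGPL : Prop := ∃ C : ℝ, 1 ≤ C ∧ ∀ (ι : Type) [Fintype ι] [DecidableEq ι] (K : KSys ι)
  (J : ℕ) (f : ℕ → ℕ) (j0 j1 : ℕ) (B : ℝ) (E : Finset ℕ) (β : ℕ → ι → ℕ), C ≤ B →
  GPH K J f j0 j1 B E → AllBad K J f j0 j1 E → Shortest K J f j0 j1 E β →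
  ((E.card : ℝ) ≤
    2 * ((E.filter (fun n => LeftRich K J f j0 j1 E β n)).card : ℝ)) →
  B ^ 400 ≤ (2 : ℝ) ^ (j1 - j0) → False

/-- The rotation transfers the hypotheses. -/
def StRot : Prop := ∀ (ι : Type) [Fintype ι] [DecidableEq ι] (K : KSys ι)
  (J : ℕ) (f : ℕ → ℕ) (j0 j1 : ℕ) (B : ℝ) (E : Finset ℕ) (β : ℕ → ι → ℕ),
  GPH K J f j0 j1 B E → AllBad K J f j0 j1 E → Shortest K J f j0 j1 E β →
  ∃ (K' : KSys ι) (f' : ℕ → ℕ) (E' : Finset ℕ) (β' : ℕ → ι → ℕ),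
    GPH K' J f' j0 j1 B E' ∧ AllBad K' J f' j0 j1 E' ∧ Shortest K' J f' j0 j1 E' β' ∧
    E'.card = E.card ∧
    (E.card ≤ (E.filter (fun n => LeftRich K J f j0 j1 E β n)).card +
      (E'.filter (fun n => LeftRich K' J f' j0 j1 E' β' n)).card)

/-- **Core** of the good pair lemma. -/
def StGPC : Prop := ∃ C : ℝ, 1 ≤ C ∧ ∀ (ι : Type) [Fintype ι] [DecidableEq ι] (K : KSys ι)
  (J : ℕ) (f : ℕ → ℕ) (j0 j1 : ℕ) (B : ℝ) (E : Finset ℕ), C ≤ B →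
  GPH K J f j0 j1 B E → B ^ 400 ≤ (2 : ℝ) ^ (j1 - j0) → ¬ AllBad K J f j0 j1 E

/-- The pair (cell of level `j0`, line `a n`) has a good pair of visited children `u < u'`: the
gap is at least `1/16` of the hull. -/
def GoodPair {ι : Type} [Fintype ι] [DecidableEq ι] (K : KSys ι) (J : ℕ) (f : ℕ → ℕ)
    (j0 j1 : ℕ) (E : Finset ℕ) (n u u' : ℕ) : Prop :=
  u ∈ Ch K J f j0 j1 E n ∧ u' ∈ Ch K J f j0 j1 E n ∧ u < u' ∧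
    en K (lv J f j1) u' - st K (lv J f j1) u ≤
      16 * (st K (lv J f j1) u' - en K (lv J f j1) u)

/-- **Good pair lemma.** -/
def StGP : Prop := ∃ C : ℝ, 1 ≤ C ∧ ∀ (ι : Type) [Fintype ι] [DecidableEq ι] (K : KSys ι)
  (J : ℕ) (f : ℕ → ℕ) (j0 j1 : ℕ) (B : ℝ) (E : Finset ℕ), C ≤ B →
  GPH K J f j0 j1 B E → B ^ 4000 ≤ (2 : ℝ) ^ (j1 - j0) →
  B * ((E.filter (fun n => ¬ ∃ u u', GoodPair K J f j0 j1 E n u u')).card : ℝ) ≤ (E.card : ℝ)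

end Pool.Agent.Work.MP_e17eac_co.AS
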