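import Mathlib

/-!
# The sum lemma of part A-I (pure numbers)

`#{z : lam ≤ V z} lam^(4/3) ≤ (C n)^(4/3)` for all `lam`, `E z ^ 3 ≤ C V z ^ 3 c z` and
`V z ≤ lam0` imply `sum E z ≤ 9 C^(11/9) n^(8/9) lam0^(1/9) (sum c z)^(1/3)` (no logarithm).
-/

namespace Pool.Agent.Work.MP_e17eac_co.AS

open Finset

namespace XSUM

/-- The sixth root of two is at least `1.12`. -/
theorem root_ge : (28 : ℝ) / 25 ≤ (2 : ℝ) ^ ((1 : ℝ) / 6) := by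
  have h0 : (0 : ℝ) ≤ 28 / 25 := by norm_num
  have h1 : ((28 : ℝ) / 25) ^ (6 : ℕ) ≤ 2 := by norm_num
  have h2 := Real.rpow_le_rpow (pow_nonneg h0 6) h1 (show (0 : ℝ) ≤ 1 / 6 by norm_num)
  rw [← Real.rpow_natCast, ← Real.rpow_mul h0] at h2
  norm_num at h2
  norm_num
  exact h2

/-- A geometric sum. -/
theorem geom (K : ℕ) : ∑ k ∈ range (K + 1), ((2 : ℝ) ^ k) ^ ((1 : ℝ) / 6) ≤
    (28 / 3) * ((2 : ℝ) ^ K) ^ ((1 : ℝ) / 6) := by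
  have e : ∀ k : ℕ, ((2 : ℝ) ^ k) ^ ((1 : ℝ) / 6) = ((2 : ℝ) ^ ((1 : ℝ) / 6)) ^ k := by
    intro k
    rw [← Real.rpow_natCast, ← Real.rpow_natCast, ← Real.rpow_mul (by norm_num),
      ← Real.rpow_mul (by norm_num), mul_comm]
  simp only [e]
  set r : ℝ := (2 : ℝ) ^ ((1 : ℝ) / 6) with hr
  have h1 : (28 : ℝ) / 25 ≤ r := root_ge
  induction K with
  | zero => norm_num
  | succ K ih =>
    rw [sum_range_succ]
    have h2 : r ^ (K + 1) = r * r ^ K := by ring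
    have h3 : 0 < r ^ K := pow_pos (by linarith) K
    have h4 : (28 / 25) * r ^ K ≤ r * r ^ K := mul_le_mul_of_nonneg_right h1 h3.le
    rw [h2]
    linarith

/-- Bound for the sum of the powers `3/2`. -/
theorem sum_pow {κ : Type*} (Z : Finset κ) (V : κ → ℝ) (A lam0 : ℝ) (hA : 0 ≤ A)
    (hl : 1 ≤ lam0) (hV : ∀ z ∈ Z, V z = 0 ∨ 1 ≤ V z) (hV0 : ∀ z ∈ Z, V z ≤ lam0)
    (h1 : ∀ lam : ℝ, 0 < lam →
      ((Z.filter (fun z => lam ≤ V z)).card : ℝ) * lam ^ ((4 : ℝ) / 3) ≤ A) :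
    ∑ z ∈ Z, V z ^ ((3 : ℝ) / 2) ≤ 27 * A * lam0 ^ ((1 : ℝ) / 6) := by
  classical
  set K := Nat.log 2 ⌊lam0⌋₊ with hK
  -- one term
  have hterm : ∀ z ∈ Z, V z ^ ((3 : ℝ) / 2) ≤ (2 : ℝ) ^ ((3 : ℝ) / 2) *
      ∑ k ∈ range (K + 1), (if (2 : ℝ) ^ k ≤ V z then ((2 : ℝ) ^ k) ^ ((3 : ℝ) / 2) else 0) := by
    intro z hz
    rcases hV z hz with h | h
    · rw [h, Real.zero_rpow (by norm_num)]
      refine mul_nonneg (Real.rpow_nonneg (by norm_num) _) (sum_nonneg fun k _ => ?_)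
      split_ifs
      · exact Real.rpow_nonneg (by positivity) _
      · exact le_rfl
    · set k := Nat.log 2 ⌊V z⌋₊ with hk
      have hf1 : 1 ≤ ⌊V z⌋₊ := Nat.le_floor (by simpa using h)
      have hkK : k ≤ K := Nat.log_mono_right (Nat.floor_le_floor (hV0 z hz))
      have a1 : (2 : ℝ) ^ k ≤ V z := by
        have h2 : 2 ^ k ≤ ⌊V z⌋₊ := Nat.pow_log_le_self 2 (by omega)
        calc (2 : ℝ) ^ k = ((2 ^ k : ℕ) : ℝ) := by push_cast; ring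
          _ ≤ (⌊V z⌋₊ : ℝ) := by exact_mod_cast h2
          _ ≤ V z := Nat.floor_le (by linarith)
      have a2 : V z ≤ 2 * (2 : ℝ) ^ k := by
        have h2 : ⌊V z⌋₊ < 2 ^ (k + 1) := Nat.lt_pow_succ_log_self (by norm_num) _
        have h3 : V z < (⌊V z⌋₊ : ℝ) + 1 := Nat.lt_floor_add_one _
        have h4 : (⌊V z⌋₊ : ℝ) + 1 ≤ (2 : ℝ) ^ (k + 1) := by exact_mod_cast h2
        calc V z ≤ (2 : ℝ) ^ (k + 1) := by linarith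
          _ = 2 * (2 : ℝ) ^ k := by ring
      have hp : (0 : ℝ) < (2 : ℝ) ^ k := by positivity
      calc V z ^ ((3 : ℝ) / 2) ≤ (2 * (2 : ℝ) ^ k) ^ ((3 : ℝ) / 2) :=
            Real.rpow_le_rpow (by linarith) a2 (by norm_num)
        _ = (2 : ℝ) ^ ((3 : ℝ) / 2) * ((2 : ℝ) ^ k) ^ ((3 : ℝ) / 2) :=
            Real.mul_rpow (by norm_num) hp.le
        _ ≤ _ := by
            refine mul_le_mul_of_nonneg_left ?_ (Real.rpow_nonneg (by norm_num) _)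
            have h5 := single_le_sum (f := fun k : ℕ => if (2 : ℝ) ^ k ≤ V z then
              ((2 : ℝ) ^ k) ^ ((3 : ℝ) / 2) else 0) (s := range (K + 1)) (by
                intro i _
                split_ifs
                · exact Real.rpow_nonneg (by positivity) _
                · exact le_rfl) (mem_range.2 (show k < K + 1 by omega))
            rw [if_pos a1] at h5
            exact h5
  have hcount : ∀ k : ℕ, ((Z.filter (fun z => (2 : ℝ) ^ k ≤ V z)).card : ℝ) *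
      ((2 : ℝ) ^ k) ^ ((3 : ℝ) / 2) ≤ A * ((2 : ℝ) ^ k) ^ ((1 : ℝ) / 6) := by
    intro k
    have hp : (0 : ℝ) < (2 : ℝ) ^ k := by positivity
    have e : ((2 : ℝ) ^ k) ^ ((3 : ℝ) / 2) = ((2 : ℝ) ^ k) ^ ((4 : ℝ) / 3) *
        ((2 : ℝ) ^ k) ^ ((1 : ℝ) / 6) := by
      rw [← Real.rpow_add hp]
      norm_num
    rw [e, ← mul_assoc]
    exact mul_le_mul_of_nonneg_right (h1 _ hp) (Real.rpow_nonneg hp.le _)
  have h2 : (2 : ℝ) ^ ((3 : ℝ) / 2) ≤ 283 / 100 := by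
    have e : (2 : ℝ) ^ ((3 : ℝ) / 2) = (8 : ℝ) ^ ((1 : ℝ) / 2) := by
      rw [show (8 : ℝ) = (2 : ℝ) ^ (3 : ℕ) by norm_num, ← Real.rpow_natCast,
        ← Real.rpow_mul (by norm_num)]
      norm_num
    rw [e, ← Real.sqrt_eq_rpow]
    rw [Real.sqrt_le_left (by norm_num)]
    norm_num
  have hlK : ((2 : ℝ) ^ K) ^ ((1 : ℝ) / 6) ≤ lam0 ^ ((1 : ℝ) / 6) := by
    refine Real.rpow_le_rpow (by positivity) ?_ (by norm_num)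
    have h3 : 2 ^ K ≤ ⌊lam0⌋₊ := Nat.pow_log_le_self 2 (by
      have : 1 ≤ ⌊lam0⌋₊ := Nat.le_floor (by simpa using hl)
      omega)
    calc (2 : ℝ) ^ K = ((2 ^ K : ℕ) : ℝ) := by push_cast; ring
      _ ≤ (⌊lam0⌋₊ : ℝ) := by exact_mod_cast h3
      _ ≤ lam0 := Nat.floor_le (by linarith)
  have hS : ∑ z ∈ Z, ∑ k ∈ range (K + 1), (if (2 : ℝ) ^ k ≤ V z then
      ((2 : ℝ) ^ k) ^ ((3 : ℝ) / 2) else 0) ≤ A * ((28 / 3) * lam0 ^ ((1 : ℝ) / 6)) := by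
    rw [sum_comm]
    calc ∑ k ∈ range (K + 1), ∑ z ∈ Z, (if (2 : ℝ) ^ k ≤ V z then
          ((2 : ℝ) ^ k) ^ ((3 : ℝ) / 2) else 0)
        = ∑ k ∈ range (K + 1), ((Z.filter (fun z => (2 : ℝ) ^ k ≤ V z)).card : ℝ) *
          ((2 : ℝ) ^ k) ^ ((3 : ℝ) / 2) := by
          refine sum_congr rfl fun k _ => ?_
          rw [← sum_filter, sum_const, nsmul_eq_mul]
      _ ≤ ∑ k ∈ range (K + 1), A * ((2 : ℝ) ^ k) ^ ((1 : ℝ) / 6) :=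
          sum_le_sum fun k _ => hcount k
      _ = A * ∑ k ∈ range (K + 1), ((2 : ℝ) ^ k) ^ ((1 : ℝ) / 6) := by rw [mul_sum]
      _ ≤ A * ((28 / 3) * ((2 : ℝ) ^ K) ^ ((1 : ℝ) / 6)) :=
          mul_le_mul_of_nonneg_left (geom K) hA
      _ ≤ A * ((28 / 3) * lam0 ^ ((1 : ℝ) / 6)) :=
          mul_le_mul_of_nonneg_left (mul_le_mul_of_nonneg_left hlK (by norm_num)) hA
  have hl0 : (0 : ℝ) ≤ A * lam0 ^ ((1 : ℝ) / 6) :=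
    mul_nonneg hA (Real.rpow_nonneg (by linarith) _)
  calc ∑ z ∈ Z, V z ^ ((3 : ℝ) / 2) ≤ ∑ z ∈ Z, (2 : ℝ) ^ ((3 : ℝ) / 2) *
        ∑ k ∈ range (K + 1), (if (2 : ℝ) ^ k ≤ V z then ((2 : ℝ) ^ k) ^ ((3 : ℝ) / 2) else 0) :=
        sum_le_sum hterm
    _ = (2 : ℝ) ^ ((3 : ℝ) / 2) * ∑ z ∈ Z,
        ∑ k ∈ range (K + 1), (if (2 : ℝ) ^ k ≤ V z then ((2 : ℝ) ^ k) ^ ((3 : ℝ) / 2) else 0) := by
        rw [mul_sum]
    _ ≤ (2 : ℝ) ^ ((3 : ℝ) / 2) * (A * ((28 / 3) * lam0 ^ ((1 : ℝ) / 6))) :=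
        mul_le_mul_of_nonneg_left hS (Real.rpow_nonneg (by norm_num) _)
    _ ≤ 283 / 100 * (A * ((28 / 3) * lam0 ^ ((1 : ℝ) / 6))) := by
        refine mul_le_mul_of_nonneg_right h2 ?_
        have : A * ((28 / 3) * lam0 ^ ((1 : ℝ) / 6)) = (28 / 3) * (A * lam0 ^ ((1 : ℝ) / 6)) := by
          ring
        rw [this]
        positivity
    _ ≤ 27 * A * lam0 ^ ((1 : ℝ) / 6) := by nlinarith

end XSUM

open XSUM in
/-- **Sum lemma** (real version). -/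
theorem sumL {κ : Type*} (Z : Finset κ) (V c E : κ → ℝ) (C n lam0 : ℝ) (hC : 0 ≤ C)
    (hn : 0 ≤ n) (hl : 1 ≤ lam0) (hV : ∀ z ∈ Z, V z = 0 ∨ 1 ≤ V z)
    (hV0 : ∀ z ∈ Z, V z ≤ lam0) (hc : ∀ z ∈ Z, 0 ≤ c z) (hE : ∀ z ∈ Z, 0 ≤ E z)
    (h1 : ∀ lam : ℝ, 0 < lam → ((Z.filter (fun z => lam ≤ V z)).card : ℝ) *
      lam ^ ((4 : ℝ) / 3) ≤ (C * n) ^ ((4 : ℝ) / 3))
    (h2 : ∀ z ∈ Z, E z ^ 3 ≤ C * V z ^ 3 * c z) :
    ∑ z ∈ Z, E z ≤ 9 * C ^ ((11 : ℝ) / 9) * n ^ ((8 : ℝ) / 9) * lam0 ^ ((1 : ℝ) / 9) *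
      (∑ z ∈ Z, c z) ^ ((1 : ℝ) / 3) := by
  classical
  have hV1 : ∀ z ∈ Z, 0 ≤ V z := fun z hz => by
    rcases hV z hz with h | h
    · exact h.ge
    · linarith
  have hCn : 0 ≤ C * n := mul_nonneg hC hn
  -- one term
  have hterm : ∀ z ∈ Z, E z ≤ C ^ ((1 : ℝ) / 3) * (V z * c z ^ ((1 : ℝ) / 3)) := by
    intro z hz
    have a1 := hV1 z hz
    have a2 := hc z hz
    have h3 := Real.rpow_le_rpow (pow_nonneg (hE z hz) 3) (h2 z hz)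
      (show (0 : ℝ) ≤ 1 / 3 by norm_num)
    have e1 : (E z ^ 3) ^ ((1 : ℝ) / 3) = E z := by
      rw [← Real.rpow_natCast, ← Real.rpow_mul (hE z hz)]
      norm_num
    have e2 : (C * V z ^ 3 * c z) ^ ((1 : ℝ) / 3) =
        C ^ ((1 : ℝ) / 3) * (V z * c z ^ ((1 : ℝ) / 3)) := by
      rw [Real.mul_rpow (mul_nonneg hC (pow_nonneg a1 3)) a2, Real.mul_rpow hC (pow_nonneg a1 3)]
      have e3 : (V z ^ 3) ^ ((1 : ℝ) / 3) = V z := by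
        rw [← Real.rpow_natCast, ← Real.rpow_mul a1]
        norm_num
      rw [e3]
      ring
    rw [e1, e2] at h3
    exact h3
  have hH : ∑ z ∈ Z, V z * c z ^ ((1 : ℝ) / 3) ≤ (∑ z ∈ Z, V z ^ ((3 : ℝ) / 2)) ^ ((2 : ℝ) / 3) *
      (∑ z ∈ Z, c z) ^ ((1 : ℝ) / 3) := by
    have hpq : Real.HolderConjugate (3 / 2) 3 := by
      constructor <;> norm_num
    have h3 := Real.inner_le_Lp_mul_Lq_of_nonneg Z hpq hV1
      (fun z hz => Real.rpow_nonneg (hc z hz) ((1 : ℝ) / 3))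
    have e1 : ∑ z ∈ Z, (c z ^ ((1 : ℝ) / 3)) ^ (3 : ℝ) = ∑ z ∈ Z, c z := by
      refine sum_congr rfl fun z hz => ?_
      rw [← Real.rpow_mul (hc z hz)]
      norm_num
    rw [e1] at h3
    have e2 : (1 : ℝ) / (3 / 2) = 2 / 3 := by norm_num
    rw [e2] at h3
    exact h3
  have hP := sum_pow Z V ((C * n) ^ ((4 : ℝ) / 3)) lam0 (Real.rpow_nonneg hCn _) hl hV hV0 h1
  have hsV : 0 ≤ ∑ z ∈ Z, V z ^ ((3 : ℝ) / 2) :=
    sum_nonneg fun z hz => Real.rpow_nonneg (hV1 z hz) _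
  have hP2 : (∑ z ∈ Z, V z ^ ((3 : ℝ) / 2)) ^ ((2 : ℝ) / 3) ≤
      9 * (C ^ ((8 : ℝ) / 9) * n ^ ((8 : ℝ) / 9)) * lam0 ^ ((1 : ℝ) / 9) := by
    have hl0 : (0 : ℝ) ≤ lam0 := by linarith
    refine (Real.rpow_le_rpow hsV hP (by norm_num)).trans (le_of_eq ?_)
    rw [Real.mul_rpow (by positivity) (by positivity), Real.mul_rpow (by norm_num) (by positivity),
      ← Real.rpow_mul hCn, ← Real.rpow_mul hl0]
    have e1 : (27 : ℝ) ^ ((2 : ℝ) / 3) = 9 := by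
      rw [show (27 : ℝ) = (3 : ℝ) ^ (3 : ℕ) by norm_num, ← Real.rpow_natCast,
        ← Real.rpow_mul (by norm_num)]
      norm_num
    rw [e1, show (4 : ℝ) / 3 * (2 / 3) = 8 / 9 by norm_num,
      show (1 : ℝ) / 6 * (2 / 3) = 1 / 9 by norm_num, Real.mul_rpow hC hn]
  have hsc : 0 ≤ (∑ z ∈ Z, c z) ^ ((1 : ℝ) / 3) := Real.rpow_nonneg (sum_nonneg hc) _
  have hC3 : 0 ≤ C ^ ((1 : ℝ) / 3) := Real.rpow_nonneg hC _
  have eC : C ^ ((11 : ℝ) / 9) = C ^ ((1 : ℝ) / 3) * C ^ ((8 : ℝ) / 9) := by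
    rcases hC.eq_or_lt with h | h
    · rw [← h, Real.zero_rpow (by norm_num), Real.zero_rpow (by norm_num), zero_mul]
    · rw [← Real.rpow_add h]
      norm_num
  calc ∑ z ∈ Z, E z ≤ ∑ z ∈ Z, C ^ ((1 : ℝ) / 3) * (V z * c z ^ ((1 : ℝ) / 3)) :=
        sum_le_sum hterm
    _ = C ^ ((1 : ℝ) / 3) * ∑ z ∈ Z, V z * c z ^ ((1 : ℝ) / 3) := by rw [mul_sum]
    _ ≤ C ^ ((1 : ℝ) / 3) * ((∑ z ∈ Z, V z ^ ((3 : ℝ) / 2)) ^ ((2 : ℝ) / 3) *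
        (∑ z ∈ Z, c z) ^ ((1 : ℝ) / 3)) := mul_le_mul_of_nonneg_left hH hC3
    _ ≤ C ^ ((1 : ℝ) / 3) * ((9 * (C ^ ((8 : ℝ) / 9) * n ^ ((8 : ℝ) / 9)) *
        lam0 ^ ((1 : ℝ) / 9)) * (∑ z ∈ Z, c z) ^ ((1 : ℝ) / 3)) :=
        mul_le_mul_of_nonneg_left (mul_le_mul_of_nonneg_right hP2 hsc) hC3
    _ = 9 * C ^ ((11 : ℝ) / 9) * n ^ ((8 : ℝ) / 9) * lam0 ^ ((1 : ℝ) / 9) *
      (∑ z ∈ Z, c z) ^ ((1 : ℝ) / 3) := by rw [eC]; ring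

/-- **Sum lemma** (natural numbers). -/
theorem sumLN {κ : Type*} (Z : Finset κ) (V c E : κ → ℕ) (C n lam0 : ℝ) (hC : 0 ≤ C)
    (hn : 0 ≤ n) (hl : 1 ≤ lam0) (hV0 : ∀ z ∈ Z, (V z : ℝ) ≤ lam0)
    (h1 : ∀ lam : ℝ, 0 < lam → ((Z.filter (fun z => lam ≤ (V z : ℝ))).card : ℝ) *
      lam ^ ((4 : ℝ) / 3) ≤ (C * n) ^ ((4 : ℝ) / 3))
    (h2 : ∀ z ∈ Z, (E z : ℝ) ^ 3 ≤ C * (V z : ℝ) ^ 3 * (c z : ℝ)) :
    ∑ z ∈ Z, (E z : ℝ) ≤ 9 * C ^ ((11 : ℝ) / 9) * n ^ ((8 : ℝ) / 9) * lam0 ^ ((1 : ℝ) / 9) *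
      (∑ z ∈ Z, (c z : ℝ)) ^ ((1 : ℝ) / 3) := by
  refine sumL Z (fun z => (V z : ℝ)) (fun z => (c z : ℝ)) (fun z => (E z : ℝ)) C n lam0 hC hn hl
    (fun z _ => ?_) hV0 (fun z _ => Nat.cast_nonneg _) (fun z _ => Nat.cast_nonneg _) h1 h2
  rcases Nat.eq_zero_or_pos (V z) with h | h
  · left
    simp only [h, Nat.cast_zero]
  · right
    exact_mod_cast h

end Pool.Agent.Work.MP_e17eac_co.AS
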